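import Pool.Agent.H86.ML.Defs

/-!
Convergence of continued fractions, the recursion and the basic bounds.
-/

namespace H86ML

open Filter Topology

lemma cfin_succ (b : ℕ → ℕ) (k : ℕ) :
    cfin b (k + 1) = 1 / ((b 0 : ℝ) + cfin (fun i => b (i + 1)) k) := rfl

lemma cfin_mem (k : ℕ) : ∀ b : ℕ → ℕ, (∀ i, 1 ≤ b i) → 0 ≤ cfin b k ∧ cfin b k ≤ 1 := by
  induction k with
  | zero => intro b _; simp [cfin]
  | succ k ih =>
    intro b hb
    have h := ih (fun i => b (i + 1)) (fun i => hb (i + 1))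
    have h0 : (1 : ℝ) ≤ b 0 := by exact_mod_cast hb 0
    rw [cfin_succ]
    constructor
    · apply div_nonneg zero_le_one; linarith [h.1]
    · rw [div_le_one (by linarith [h.1])]; linarith [h.1]

/-- Two step contraction. -/
lemma two_step (a c : ℝ) (ha : 1 ≤ a) (hc : 1 ≤ c) (x y : ℝ) (hx : 0 ≤ x) (hy : 0 ≤ y) :
    |1 / (a + 1 / (c + x)) - 1 / (a + 1 / (c + y))| ≤ |x - y| / 4 := by
  have h1 : 0 < c + x := by linarith
  have h2 : 0 < c + y := by linarith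
  have h3 : 1 ≤ a * (c + x) := by nlinarith
  have h4 : 1 ≤ a * (c + y) := by nlinarith
  have e1 : 1 / (a + 1 / (c + x)) = (c + x) / (a * (c + x) + 1) := by
    field_simp
  have e2 : 1 / (a + 1 / (c + y)) = (c + y) / (a * (c + y) + 1) := by
    field_simp
  have e3 : (c + x) / (a * (c + x) + 1) - (c + y) / (a * (c + y) + 1)
      = (x - y) / ((a * (c + x) + 1) * (a * (c + y) + 1)) := by
    rw [div_sub_div _ _ (by linarith) (by linarith)]
    congr 1
    ring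
  rw [e1, e2, e3, abs_div]
  have h5 : (4 : ℝ) ≤ (a * (c + x) + 1) * (a * (c + y) + 1) := by nlinarith
  rw [abs_of_pos (by linarith : (0 : ℝ) < (a * (c + x) + 1) * (a * (c + y) + 1))]
  apply div_le_div_of_nonneg_left (abs_nonneg _) (by norm_num) h5

lemma cfin_close (k : ℕ) : ∀ (b : ℕ → ℕ), (∀ i, 1 ≤ b i) → ∀ m n, 2 * k ≤ m → 2 * k ≤ n →
    |cfin b m - cfin b n| ≤ (1 / 4) ^ k := by
  induction k with
  | zero =>
    intro b hb m n _ _
    have h1 := cfin_mem m b hb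
    have h2 := cfin_mem n b hb
    rw [abs_le]
    constructor <;> simp <;> linarith [h1.1, h1.2, h2.1, h2.2]
  | succ k ih =>
    intro b hb m n hm hn
    obtain ⟨m', rfl⟩ : ∃ m', m = m' + 1 + 1 := ⟨m - 2, by omega⟩
    obtain ⟨n', rfl⟩ : ∃ n', n = n' + 1 + 1 := ⟨n - 2, by omega⟩
    have hb2 : ∀ i, 1 ≤ (fun i => b (i + 1 + 1)) i := fun i => hb _
    have h := ih (fun i => b (i + 1 + 1)) hb2 m' n' (by omega) (by omega)
    have hm' := cfin_mem m' (fun i => b (i + 1 + 1)) hb2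
    have hn' := cfin_mem n' (fun i => b (i + 1 + 1)) hb2
    have h0 : (1 : ℝ) ≤ b 0 := by exact_mod_cast hb 0
    have h1 : (1 : ℝ) ≤ b 1 := by exact_mod_cast hb 1
    have := two_step (b 0) (b 1) h0 h1 _ _ hm'.1 hn'.1
    rw [cfin_succ, cfin_succ, cfin_succ, cfin_succ]
    refine le_trans this ?_
    rw [pow_succ]
    linarith

lemma cfin_cauchy (b : ℕ → ℕ) (hb : ∀ i, 1 ≤ b i) : CauchySeq (cfin b) := by
  rw [Metric.cauchySeq_iff]
  intro ε hε
  obtain ⟨k, hk⟩ := exists_pow_lt_of_lt_one hε (by norm_num : (1 / 4 : ℝ) < 1)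
  refine ⟨2 * k, fun m hm n hn => ?_⟩
  rw [Real.dist_eq]
  exact lt_of_le_of_lt (cfin_close k b hb m n hm hn) hk

lemma cf_tendsto (b : ℕ → ℕ) (hb : ∀ i, 1 ≤ b i) : Tendsto (cfin b) atTop (𝓝 (cf b)) :=
  (cfin_cauchy b hb).tendsto_limUnder

lemma cf_mem (b : ℕ → ℕ) (hb : ∀ i, 1 ≤ b i) : 0 ≤ cf b ∧ cf b ≤ 1 :=
  ⟨ge_of_tendsto' (cf_tendsto b hb) fun k => (cfin_mem k b hb).1,
   le_of_tendsto' (cf_tendsto b hb) fun k => (cfin_mem k b hb).2⟩

lemma cf_rec (b : ℕ → ℕ) (hb : ∀ i, 1 ≤ b i) :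
    cf b = 1 / ((b 0 : ℝ) + cf (fun i => b (i + 1))) := by
  have h0 : (1 : ℝ) ≤ b 0 := by exact_mod_cast hb 0
  have h1 := cf_tendsto b hb
  have hb' : ∀ i, 1 ≤ (fun i => b (i + 1)) i := fun i => hb _
  have h2 := cf_tendsto _ hb'
  have h3 : Tendsto (fun k => cfin b (k + 1)) atTop (𝓝 (cf b)) :=
    h1.comp (tendsto_add_atTop_nat 1)
  have h4 : Tendsto (fun k => cfin b (k + 1)) atTop
      (𝓝 (1 / ((b 0 : ℝ) + cf (fun i => b (i + 1))))) := by
    have : (fun k => cfin b (k + 1)) =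
        fun k => 1 / ((b 0 : ℝ) + cfin (fun i => b (i + 1)) k) := by
      funext k; rfl
    rw [this]
    apply Tendsto.div tendsto_const_nhds (tendsto_const_nhds.add h2)
    have := (cf_mem _ hb').1
    linarith
  exact tendsto_nhds_unique h3 h4

/-- If the first four entries are at most `3` then the value lies in `[0.2631, 0.7918]`. -/
lemma cf_dig3 (b : ℕ → ℕ) (hb : ∀ i, 1 ≤ b i) (h3 : ∀ i, i < 4 → b i ≤ 3) :
    (2631 : ℝ) / 10000 ≤ cf b ∧ cf b ≤ 7918 / 10000 := by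
  have key : ∀ (c : ℕ → ℕ), (∀ i, 1 ≤ c i) → c 0 ≤ 3 → ∀ lo hi : ℝ, 0 ≤ lo →
      lo ≤ cf (fun i => c (i + 1)) → cf (fun i => c (i + 1)) ≤ hi →
      1 / (3 + hi) ≤ cf c ∧ cf c ≤ 1 / (1 + lo) := by
    intro c hc hc3 lo hi hlo h1 h2
    have e := cf_rec c hc
    have h0 : (1 : ℝ) ≤ c 0 := by exact_mod_cast hc 0
    have h03 : (c 0 : ℝ) ≤ 3 := by exact_mod_cast hc3
    rw [e]
    constructor
    · apply one_div_le_one_div_of_le <;> linarith
    · apply one_div_le_one_div_of_le <;> linarith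
  have h4 := cf_mem (fun i => b (i + 1 + 1 + 1 + 1)) (fun i => hb _)
  have k3 := key (fun i => b (i + 1 + 1 + 1)) (fun i => hb _) (h3 3 (by norm_num)) 0 1 le_rfl
    h4.1 h4.2
  have k2 := key (fun i => b (i + 1 + 1)) (fun i => hb _) (h3 2 (by norm_num)) _ _
    (by norm_num) k3.1 k3.2
  have k1 := key (fun i => b (i + 1)) (fun i => hb _) (h3 1 (by norm_num)) _ _
    (by norm_num) k2.1 k2.2
  have k0 := key b hb (h3 0 (by norm_num)) _ _ (by norm_num) k1.1 k1.2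
  constructor
  · refine le_trans ?_ k0.1
    norm_num
  · refine le_trans k0.2 ?_
    norm_num

end H86ML
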