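import Pool.Agent.H86.ML.Tree

/-!
Search trees (found by a computer search, verified here by the kernel).
-/

namespace H86ML

/-- The window of the periodic word around its centre. -/
def W : Z :=
  ⟨[2, 1, 2, 1, 2, 3, 1, 1, 2, 2, 3, 2, 3, 2, 2, 1, 1, 3, 2, 1, 2, 1, 2, 3, 2, 2, 1, 1, 3, 2, 1,
    2, 1, 2, 3, 1, 1, 2, 2, 3, 2, 3, 2, 2], 3, [1, 1, 2, 2, 3, 2, 1, 2, 1, 2, 3, 1, 1, 2, 2, 3,
    2, 3, 2, 2, 1, 1, 3, 2, 1, 2, 1, 2, 3, 1, 1, 2, 2, 3, 2, 1, 2, 1, 2, 3, 1, 1, 2, 2, 3, 2, 3,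
    2, 2, 1]⟩

def Bw : ℕ × ℕ := (39515545067435191976252694511115460887, 10000000000000000000000000000000000000)

def Tw : ℕ × ℕ := (395155450674351919762526945111154609, 100000000000000000000000000000000000)

def Bg : ℕ × ℕ := (3963341, 1000000)

def Tg : ℕ × ℕ := (39633411, 10000000)

def tA_0 : Tr :=
  .br true .lo .lo (.br false (.br false (.br true (.hi 6) .lo .lo) (.br true (.hi 0) (.br false
    (.br true (.br false .lo (.br true (.hi 6) .lo .lo) (.hl 8)) (.hi 6) (.hi 6)) .lo .lo) .lo)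
    (.hl 6)) .lo .lo)

def tA_1 : Tr :=
  .br false (.hi 0) (.hi 0) (.br true .lo (.br false .lo (.br true (.br false (.hi 0) (.hl 29)
    (.hl 29)) (.br false (.br false .lo (.br true .ok (.br false (.hi 0) (.hl 29) (.hl 29)) (.hi
    0)) (.hl 50)) .lo .lo) .lo) (.hi 0)) (.br false .lo (.hi 0) (.hi 0)))

def tA_2 : Tr :=
  .br true (.hi 29) (.br false (.hi 0) (.br true (.hi 0) (.hi 40) (.br false .lo (.br true (.hi
    29) (.br false (.br false (.br true (.hi 0) (.hi 0) tA_1) (.hi 0) (.hi 0)) .lo .lo) (.hi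
    40)) (.hi 0))) (.hl 29)) (.hi 0)

def tA_3 : Tr :=
  .br false (.hi 0) (.br true .lo .lo (.br false .lo .lo (.br true (.br false (.hi 0) (.br true
    (.br true (.hi 40) (.br false .lo .lo tA_2) .lo) (.hi 0) (.hi 0)) (.hl 29)) (.hi 29) (.hi
    29)))) .lo

def tA_4 : Tr :=
  .br true (.br false (.br false (.br true (.hi 0) (.br false (.hl 29) (.br true (.br true (.br
    false (.hi 0) (.hi 0) (.hl 29)) tA_3 (.hi 29)) (.hi 0) (.hi 0)) (.hi 0)) .lo) (.hl 29) .lo)
    (.hi 0) (.hi 0)) (.hi 0) (.hi 0)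

def tA_5 : Tr :=
  .br false (.br false .lo (.br true (.br true (.br false (.hi 0) (.hl 29) (.hl 29)) (.hi 0)
    (.hi 0)) (.br false (.br true .lo (.hi 29) (.br false .lo (.br false (.hi 0) (.hi 0) (.br
    true (.hi 0) tA_4 .lo)) (.hi 0))) .lo .lo) .lo) (.hl 32)) .lo .lo

def tA_6 : Tr :=
  .br true (.hi 0) (.hi 0) (.br false (.hi 0) (.hi 0) (.br true (.br false .lo (.br true (.br
    true .lo tA_5 (.br false (.br false (.hl 29) (.hi 0) (.hi 0)) .lo .lo)) .lo .lo) (.br true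
    (.hi 0) .lo .lo)) (.br false (.hl 29) (.hi 0) (.hi 0)) (.br false (.hl 29) (.hi 0) (.hi
    0))))

def tA_7 : Tr :=
  .br true (.br false (.br false (.br true (.hi 23) (.hi 0) (.hi 0)) (.hi 0) (.hi 0)) (.br true
    .lo (.br false .lo (.br true (.br true (.hi 23) (.br false (.br false tA_6 (.hi 0) (.hi 0))
    .lo .lo) (.hi 28)) .lo .lo) (.br true (.hi 0) (.hi 23) .lo)) (.hi 26)) .lo) (.hi 23) .lo

def tA_8 : Tr :=
  .br true (.br false (.br true (.hi 0) (.br false (.hi 0) (.br true (.br false (.br false (.hi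
    0) (.br true (.hi 0) (.hi 0) (.hi 25)) (.hl 25)) (.hi 0) (.hi 0)) (.hi 0) (.hi 0)) (.hl 23))
    (.br false (.hi 0) (.br false .lo .lo (.br true .lo tA_7 (.hi 0))) .lo)) (.hi 0) (.hi 0))
    (.hi 0) (.hi 0)

def tA_9 : Tr :=
  .br false .lo .lo (.br true (.hi 0) (.br false (.hi 0) (.br true (.br false .lo (.hl 18) (.hl
    18)) (.br false (.br false (.hi 0) (.br true tA_8 (.br false .lo .lo (.hl 18)) .lo) (.hl
    21)) (.hi 0) (.hi 0)) (.hi 0)) .lo) (.br false (.hi 0) .lo .lo))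

def tA_10 : Tr :=
  .br true (.br false (.hl 13) (.hi 0) (.hi 0)) (.br false .lo (.br true .lo (.hi 11) (.br false
    (.hi 0) (.br true (.hi 16) (.br false (.br false (.br true .lo .lo tA_9) .lo .lo) (.hi 0)
    (.hi 0)) (.hi 11)) .lo)) (.br true (.hi 11) (.hi 0) (.hi 0))) .lo

def tA_11 : Tr :=
  .br false .lo (.br true (.hi 0) (.hi 0) (.br false (.hi 0) (.hi 0) (.br true (.br false .lo
    (.br true (.br true (.hi 11) (.br false (.hi 0) (.hi 0) tA_10) (.hi 0)) .lo .lo) (.hl 6))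
    (.br false (.hl 11) (.hi 0) (.hi 0)) (.br false (.hl 11) (.hi 0) (.hi 0))))) (.hi 0)

def tA_12 : Tr :=
  .br true (.br false (.br false (.br true .lo (.br false (.hl 6) (.br true (.br true (.br false
    .lo .lo (.hl 6)) tA_11 (.hi 10)) .lo .lo) .lo) (.hi 0)) (.hl 6) (.hi 0)) .lo .lo) .lo .lo

def tA_13 : Tr :=
  .br true (.br true (.br false .lo tA_0 (.br true (.br true (.br false (.br true .lo (.br false
    .lo .lo (.hl 4)) (.br false .lo (.hl 4) (.hi 0))) .lo .lo) .lo .lo) (.hi 0) (.hi 0))) .lo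
    .lo) (.br false (.br true (.hi 0) (.br false (.hi 0) (.br true (.br false (.br true (.hi 0)
    (.br false (.hi 0) (.hi 0) (.hl 7)) (.hi 7)) (.hi 0) (.hi 0)) (.hi 0) (.hi 0)) (.hl 5)) (.br
    false (.hi 0) (.br false .lo .lo (.br true .lo tA_12 (.hi 0))) .lo)) (.hi 0) (.hi 0)) (.hi
    0)

def tA_14 : Tr :=
  .br true (.hi 0) (.br false (.br false (.hi 0) tA_13 (.hl 3)) (.hi 0) (.hi 0)) (.br false (.br
    false (.br false .lo (.br true .lo (.br false (.br true (.hi 0) (.hi 3) (.hi 3)) (.br true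
    (.br true .lo .lo (.hi 6)) .lo .lo) .lo) (.hi 0)) (.br true (.hi 3) (.hi 0) (.hi 0))) .lo
    .lo) (.hi 0) (.hi 0))

def tA_15 : Tr :=
  .br false .lo .lo (.br true (.br true (.br false (.hl 6) .lo .lo) (.br false (.hi 0) (.br true
    (.br false (.br true .lo (.br false (.hl 6) .lo .lo) (.hi 8)) (.hl 6) (.hl 6)) .lo .lo) .lo)
    (.hi 6)) .lo .lo)

def tA_16 : Tr :=
  .br true (.hi 0) (.hi 0) (.br false .lo (.br true .lo (.br false (.br true (.hi 0) (.hi 29)
    (.hi 29)) (.br true (.br true .lo (.br false .ok (.br true (.hi 0) (.hi 29) (.hi 29)) (.hi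
    0)) (.hi 50)) .lo .lo) .lo) (.hi 0)) (.br true .lo (.hi 0) (.hi 0)))

def tA_17 : Tr :=
  .br false (.hl 29) (.br true (.hi 0) (.br false (.hi 0) (.hl 40) (.br true .lo (.br false (.hl
    29) (.br true (.br true (.br false (.hi 0) (.hi 0) tA_16) (.hi 0) (.hi 0)) .lo .lo) (.hl
    40)) (.hi 0))) (.hi 29)) (.hi 0)

def tA_18 : Tr :=
  .br true (.hi 0) (.br false .lo .lo (.br true .lo .lo (.br false (.br true (.hi 0) (.br false
    (.br false (.hl 40) (.br true .lo .lo tA_17) .lo) (.hi 0) (.hi 0)) (.hi 29)) (.hl 29) (.hl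
    29)))) .lo

def tA_19 : Tr :=
  .br false (.br true (.br true (.br false (.hi 0) (.br true (.hi 29) (.br false (.br false (.br
    true (.hi 0) (.hi 0) (.hi 29)) tA_18 (.hl 29)) (.hi 0) (.hi 0)) (.hi 0)) .lo) (.hi 29) .lo)
    (.hi 0) (.hi 0)) (.hi 0) (.hi 0)

def tA_20 : Tr :=
  .br true (.br true .lo (.br false (.br false (.br true (.hi 0) (.hi 29) (.hi 29)) (.hi 0) (.hi
    0)) (.br true (.br false .lo (.hl 29) (.br true .lo (.br true (.hi 0) (.hi 0) (.br false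
    (.hi 0) tA_19 .lo)) (.hi 0))) .lo .lo) .lo) (.hi 32)) .lo .lo

def tA_21 : Tr :=
  .br false (.hi 0) (.hi 0) (.br true (.hi 0) (.hi 0) (.br false (.br true .lo (.br false (.br
    false .lo tA_20 (.br true (.br true (.hi 29) (.hi 0) (.hi 0)) .lo .lo)) .lo .lo) (.br false
    (.hi 0) .lo .lo)) (.br true (.hi 29) (.hi 0) (.hi 0)) (.br true (.hi 29) (.hi 0) (.hi 0))))

def tA_22 : Tr :=
  .br false (.br true (.br true (.br false (.hl 23) (.hi 0) (.hi 0)) (.hi 0) (.hi 0)) (.br false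
    .lo (.br true .lo (.br false (.br false (.hl 23) (.br true (.br true tA_21 (.hi 0) (.hi 0))
    .lo .lo) (.hl 28)) .lo .lo) (.br false (.hi 0) (.hl 23) .lo)) (.hl 26)) .lo) (.hl 23) .lo

def tA_23 : Tr :=
  .br false (.br true (.br false (.hi 0) (.br true (.hi 0) (.br false (.br true (.br true (.hi
    0) (.br false (.hi 0) (.hi 0) (.hl 25)) (.hi 25)) (.hi 0) (.hi 0)) (.hi 0) (.hi 0)) (.hi
    23)) (.br true (.hi 0) (.br true .lo .lo (.br false .lo tA_22 (.hi 0))) .lo)) (.hi 0) (.hi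
    0)) (.hi 0) (.hi 0)

def tA_24 : Tr :=
  .br true .lo .lo (.br false (.hi 0) (.br true (.hi 0) (.br false (.br true .lo (.hi 18) (.hi
    18)) (.br true (.br true (.hi 0) (.br false tA_23 (.br true .lo .lo (.hi 18)) .lo) (.hi 21))
    (.hi 0) (.hi 0)) (.hi 0)) .lo) (.br true (.hi 0) .lo .lo))

def tA_25 : Tr :=
  .br false (.br true (.hi 13) (.hi 0) (.hi 0)) (.br true .lo (.br false .lo (.hl 11) (.br true
    (.hi 0) (.br false (.hl 16) (.br true (.br true (.br false .lo .lo tA_24) .lo .lo) (.hi 0)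
    (.hi 0)) (.hl 11)) .lo)) (.br false (.hl 11) (.hi 0) (.hi 0))) .lo

def tA_26 : Tr :=
  .br true .lo (.br false (.hi 0) (.hi 0) (.br true (.hi 0) (.hi 0) (.br false (.br true .lo
    (.br false (.br false (.hl 11) (.br true (.hi 0) (.hi 0) tA_25) (.hi 0)) .lo .lo) (.hi 6))
    (.br true (.hi 11) (.hi 0) (.hi 0)) (.br true (.hi 11) (.hi 0) (.hi 0))))) (.hi 0)

def tA_27 : Tr :=
  .br false (.br true (.br true (.br false .lo (.br true (.hi 6) (.br false (.br false (.br true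
    .lo .lo (.hi 6)) tA_26 (.hl 10)) .lo .lo) .lo) (.hi 0)) (.hi 6) (.hi 0)) .lo .lo) .lo .lo

def tA_28 : Tr :=
  .br false (.br false (.br true .lo tA_15 (.br false (.br false (.br true (.br false .lo (.br
    true .lo .lo (.hi 4)) (.br true .lo (.hi 4) (.hi 0))) .lo .lo) .lo .lo) (.hi 0) (.hi 0)))
    .lo .lo) (.br true (.br false (.hi 0) (.br true (.hi 0) (.br false (.br true (.br false (.hi
    0) (.br true (.hi 0) (.hi 0) (.hi 7)) (.hl 7)) (.hi 0) (.hi 0)) (.hi 0) (.hi 0)) (.hi 5))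
    (.br true (.hi 0) (.br true .lo .lo (.br false .lo tA_27 (.hi 0))) .lo)) (.hi 0) (.hi 0))
    (.hi 0)

def tA_29 : Tr :=
  .br true (.br false (.hi 0) (.br true (.hi 0) tA_28 (.hi 3)) (.br true (.br true .lo (.br
    false .lo (.br true (.br false (.hi 0) (.hl 3) (.hl 3)) (.br false (.br false .lo .lo (.hl
    6)) .lo .lo) .lo) (.hi 0)) (.br false (.hl 3) (.hi 0) (.hi 0))) .lo .lo)) (.hi 0) (.hi 0)

def tA : Tr :=
  .br true (.br false (.hi 0) (.br true tA_14 (.hi 0) (.hi 0)) (.br true .lo (.hi 0) (.hi 0)))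
    (.br false (.br false tA_29 (.hi 0) (.hi 0)) .lo .lo) (.br false (.br false .lo (.hi 0) (.hi
    0)) .lo .lo)

def tB_0 : Tr :=
  .br true (.hi 29) (.br true (.hi 58) (.br true (.hi 29) (.hi 29) (.br true (.hi 58) (.br true
    (.hi 29) (.hi 29) (.br true (.hi 58) (.br true (.hi 29) (.br true .ok (.hi 29) (.hi 29))
    (.hi 58)) (.hi 29))) (.hi 29))) (.hi 29)) (.hi 58)

def tB_1 : Tr :=
  .br true (.hi 29) (.br true (.br true (.hi 29) (.br true (.br true (.hi 29) (.br true (.hi 58)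
    (.hi 58) (.br true (.br true tB_0 (.hi 29) (.hi 29)) (.hi 58) (.hi 58))) (.hi 58)) (.hi 29)
    (.hi 29)) (.hi 58)) (.hi 29) (.hi 29)) (.hi 58)

def tB_2 : Tr :=
  .br true (.br true (.hi 52) (.br true (.hi 29) (.hi 29) (.br true (.br true (.br true (.hi 58)
    (.br true (.hi 29) (.br true (.hi 58) (.hi 58) tB_1) (.hi 58)) (.hi 29)) (.hi 58) (.hi 58))
    (.hi 29) (.hi 29))) (.hi 29)) (.hi 52) (.hi 52)

def tB : Tr :=
  .br true (.br true (.hi 29) (.hi 29) (.br true (.hi 52) (.br true (.br true (.hi 52) tB_2 (.hi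
    29)) (.hi 52) (.hi 52)) (.hi 29))) (.hi 29) (.hi 29)

def tC_0 : Tr :=
  .br true (.br false (.br true (.br false .lo .lo (.br true (.br true (.br false (.hl 6) (.hl
    6) .lo) (.hi 0) (.hi 0)) .lo .lo)) (.br false (.br false (.br true (.br false .lo (.br true
    .lo .lo (.hi 8)) (.br true .lo (.hi 0) (.hi 0))) .lo .lo) .lo .lo) (.hi 0) (.hi 0)) (.br
    false (.br false (.hi 0) (.br true (.hi 6) (.br false .lo .lo (.br true .lo .lo (.hi 6)))
    .lo) .lo) (.hi 0) (.hi 0))) .lo .lo) .lo .lo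

def tC_1 : Tr :=
  .br false (.br false (.br true (.br false tC_0 (.br true (.hi 0) (.br false (.hi 0) (.hi 0)
    (.br true (.br true (.hi 0) (.hi 0) (.hi 7)) (.hi 0) (.hi 0))) (.hi 5)) (.hi 0)) (.hi 0)
    (.hi 0)) .lo .lo) (.hi 0) (.hi 0)

def tC_2 : Tr :=
  .br false (.br true (.br false (.br true .lo .lo (.br false (.br false (.br true (.hi 6) (.hi
    6) .lo) (.hi 0) (.hi 0)) .lo .lo)) (.br true (.br true (.br false (.br true .lo (.br false
    .lo .lo (.hl 8)) (.br false .lo (.hi 0) (.hi 0))) .lo .lo) .lo .lo) (.hi 0) (.hi 0)) (.br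
    true (.br true (.hi 0) (.br false (.hl 6) (.br true .lo .lo (.br false .lo .lo (.hl 6)))
    .lo) .lo) (.hi 0) (.hi 0))) .lo .lo) .lo .lo

def tC_3 : Tr :=
  .br false (.hi 0) (.br true (.br false (.br true tC_2 (.br false (.hi 0) (.br true (.hi 0)
    (.hi 0) (.br false (.br false (.hi 0) (.hi 0) (.hl 7)) (.hi 0) (.hi 0))) (.hl 5)) (.hi 0))
    (.hi 0) (.hi 0)) .lo .lo) .lo

def tC : Tr :=
  .br true (.br false (.hi 0) (.br true (.br true (.hi 0) tC_1 (.br false .lo (.hi 0) (.hi 0)))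
    (.hi 0) (.hi 0)) (.br true .lo (.br true (.hi 0) (.hi 0) (.br false (.br false (.hi 0) (.hl
    1) .lo) (.hi 0) (.hi 0))) (.hi 0))) (.br false (.br false (.br true tC_3 (.hi 0) (.hi 0))
    (.hi 0) (.hi 0)) .lo .lo) (.br false (.br false .lo (.br true (.br false (.hi 0) (.hi 0)
    (.br true (.hi 0) (.hi 1) .lo)) (.hi 0) (.hi 0)) (.hi 0)) .lo .lo)

/-- Target of the first search: the window `W` or its reversal. -/
def tgtA (z : Z) : Bool := has W z || has W.rev z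

/-- Target of the second search: the window `W` again, 29 places to the right. -/
def tgtB (z : Z) : Bool := Nat.ble 29 z.rt.length && has W (Z.mrs 29 z)

def tgtC (_ : Z) : Bool := false

set_option maxRecDepth 100000 in
theorem chkA : chk tgtA Bw Tw tA ⟨[], 3, []⟩ = true := by decide +kernel

theorem chkA1 : chk tgtA Bw Tw .lo ⟨[], 1, []⟩ = true := by decide +kernel

theorem chkA2 : chk tgtA Bw Tw .lo ⟨[], 2, []⟩ = true := by decide +kernel

set_option maxRecDepth 100000 in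
theorem chkB : chk tgtB (0, 1) Tw tB W = true := by decide +kernel

set_option maxRecDepth 100000 in
theorem chkC : chk tgtC Bg Tg tC ⟨[], 3, []⟩ = true := by decide +kernel

theorem chkC1 : chk tgtC Bg Tg .lo ⟨[], 1, []⟩ = true := by decide +kernel

theorem chkC2 : chk tgtC Bg Tg .lo ⟨[], 2, []⟩ = true := by decide +kernel

end H86ML
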