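import Mathlib

/-!
# Markov and Lagrange spectra: definitions

`cfin b k` is the finite continued fraction [0; b 0, b 1, ..., b (k-1)], `cf b` the limit
for `k → ∞`, `lam θ n` is the number
`[θ n; θ (n+1), θ (n+2), ...] + [0; θ (n-1), θ (n-2), ...]`, `Markov` is the set of the finite
suprema over `n` and `Lagrange` the set of the finite upper limits for `n → ∞`.
-/

namespace H86ML

/-- The finite continued fraction `[0; b 0, b 1, ..., b (k-1)]`. -/
noncomputable def cfin : (ℕ → ℕ) → ℕ → ℝ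
  | _, 0 => 0
  | b, k + 1 => 1 / ((b 0 : ℝ) + cfin (fun i => b (i + 1)) k)

/-- The infinite continued fraction `[0; b 0, b 1, ...]`, the limit of the finite ones. -/
noncomputable def cf (b : ℕ → ℕ) : ℝ :=
  Filter.limUnder Filter.atTop (cfin b)

/-- `λ_n(θ) = [θ_n; θ_{n+1}, θ_{n+2}, ...] + [0; θ_{n-1}, θ_{n-2}, ...]`. -/
noncomputable def lam (θ : ℤ → ℕ) (n : ℤ) : ℝ :=
  ((θ n : ℝ) + cf (fun i => θ (n + 1 + i))) + cf (fun i => θ (n - 1 - i))

/-- The Markov spectrum: all real numbers of the form `sup_n λ_n(θ)`, `θ` a bi-infinite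
sequence of positive integers. -/
def Markov : Set ℝ :=
  {m | ∃ θ : ℤ → ℕ, (∀ n, 1 ≤ θ n) ∧ IsLUB (Set.range (lam θ)) m}

/-- The Lagrange spectrum: all real numbers of the form `limsup_{n → ∞} λ_n(θ)`, `θ` a
bi-infinite sequence of positive integers (the upper limit is taken in the extended reals). -/
def Lagrange : Set ℝ :=
  {l | ∃ θ : ℤ → ℕ, (∀ n, 1 ≤ θ n) ∧
    Filter.limsup (fun n : ℤ => ((lam θ n : ℝ) : EReal)) Filter.atTop = (l : EReal)}

end H86ML
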