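import Pool.Agent.H86.ML.Per

/-!
The Lagrange spectrum has no point in `(Bw, Tw)`, the Markov spectrum has one; a gap and a
point of the Lagrange spectrum further to the right.
-/

namespace H86ML

open Filter

/-- No upper limit lies strictly between `Bw` and `Tw`. -/
theorem lagrange_gap (v : ℝ) (h1 : vl Bw < v) (h2 : v < vl Tw) : v ∉ Lagrange := by
  rintro ⟨θ, hθ, hl⟩
  have e1 : ∀ᶠ n : ℤ in atTop, ((lam θ n : ℝ) : EReal) < ((vl Tw : ℝ) : EReal) := by
    refine eventually_lt_of_limsup_lt ?_ (by isBoundedDefault)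
    rw [hl]; exact_mod_cast h2
  have e2 : ∃ᶠ n : ℤ in atTop, ((vl Bw : ℝ) : EReal) < ((lam θ n : ℝ) : EReal) := by
    apply frequently_lt_of_lt_limsup
    · isBoundedDefault
    · rw [hl]; exact_mod_cast h1
  obtain ⟨N, hN⟩ := eventually_atTop.1 e1
  have hT : ∀ j, N ≤ j → lam θ j ≤ vl Tw := by
    intro j hj
    have := hN j hj
    have : lam θ j < vl Tw := by exact_mod_cast this
    exact this.le
  rw [frequently_atTop] at e2
  obtain ⟨m1, a1, b1⟩ := e2 (N + 300)
  obtain ⟨m2, a2, b2⟩ := e2 (m1 + 200)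
  obtain ⟨m3, a3, b3⟩ := e2 (m2 + 200)
  have b1 : vl Bw < lam θ m1 := by exact_mod_cast b1
  have b2 : vl Bw < lam θ m2 := by exact_mod_cast b2
  have b3 : vl Bw < lam θ m3 := by exact_mod_cast b3
  exact three θ hθ N m1 m2 m3 hT a1 a2 a3 b1.le b2.le b3.le

lemma Bg_pos : 0 < Bg.2 := by decide
lemma Tg_pos : 0 < Tg.2 := by decide

/-- No upper limit lies strictly between `Bg` and `Tg`. -/
theorem lagrange_gap2 (v : ℝ) (h1 : vl Bg < v) (h2 : v < vl Tg) : v ∉ Lagrange := by
  rintro ⟨θ, hθ, hl⟩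
  have e1 : ∀ᶠ n : ℤ in atTop, ((lam θ n : ℝ) : EReal) < ((vl Tg : ℝ) : EReal) := by
    refine eventually_lt_of_limsup_lt ?_ (by isBoundedDefault)
    rw [hl]; exact_mod_cast h2
  have e2 : ∃ᶠ n : ℤ in atTop, ((vl Bg : ℝ) : EReal) < ((lam θ n : ℝ) : EReal) := by
    apply frequently_lt_of_lt_limsup
    · isBoundedDefault
    · rw [hl]; exact_mod_cast h1
  obtain ⟨N, hN⟩ := eventually_atTop.1 e1
  have hT : ∀ j, N ≤ j → lam θ j ≤ vl Tg := by
    intro j hj
    have := hN j hj
    have : lam θ j < vl Tg := by exact_mod_cast this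
    exact this.le
  rw [frequently_atTop] at e2
  obtain ⟨n, a1, b1⟩ := e2 (N + 300)
  have b1 : vl Bg < lam θ n := by exact_mod_cast b1
  have hp := hθ n
  have hd : θ n < 4 := by
    have h3 := hT n (by omega)
    have h4 := lam_ge θ hθ n
    have h5 : vl Tg < 4 := by simp only [vl, Tg]; norm_num
    have h6 : (θ n : ℝ) < 4 := by linarith
    exact_mod_cast h6
  have snd := chk_sound tgtC Bg Tg Bg_pos Tg_pos (by decide) θ hθ n
    (fun m a _ => hT m (by omega)) b1.le
  have fin : ∀ z', ¬ (tgtC z' = true ∧ Fits θ n z') := by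
    rintro z' ⟨h1, h2⟩
    simp [tgtC] at h1
  have hc : ∀ c, θ n = c → Fits θ n ⟨[], c, []⟩ := fun c h => ⟨h, trivial, trivial⟩
  have h3 : θ n = 1 ∨ θ n = 2 ∨ θ n = 3 := by omega
  rcases h3 with h | h | h
  · obtain ⟨z', hz⟩ := snd _ _ (hc _ h) chkC1
    exact fin z' hz
  · obtain ⟨z', hz⟩ := snd _ _ (hc _ h) chkC2
    exact fin z' hz
  · obtain ⟨z', hz⟩ := snd _ _ (hc _ h) chkC
    exact fin z' hz

/-! ### The point of the Markov spectrum -/

/-- The sequence: the periodic one from the place `-52` on, and `2` before. -/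
def th0 (m : ℤ) : ℕ := if m < -52 then 2 else Pd (m + 58).toNat

/-- The same sequence, shifted by `116`. -/
def G (j : ℕ) : ℕ := if j < 64 then 2 else Pd (j - 64 + 6)

/-- Upper bound for all the values. -/
def T1 : ℕ × ℕ := (3951554506743519197625269451111546089, 1000000000000000000000000000000000000)

theorem chkM : ∀ k, k < 64 → ltB T1 (win G (64 + k) 64) = true := by
  decide +kernel

theorem chkM0 : gtT Bw (win G 116 64) = true := by
  decide +kernel

theorem chkM2 : ltB T1 ⟨[], 2, []⟩ = true := by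
  decide +kernel

lemma th0_G (j : ℕ) : th0 ((j : ℤ) - 116) = G j := by
  simp only [th0, G]
  by_cases h : j < 64
  · rw [if_pos (by omega), if_pos h]
  · rw [if_neg (by omega), if_neg h]
    congr 1; omega

lemma th0_pos (m : ℤ) : 1 ≤ th0 m ∧ th0 m ≤ 3 := by
  simp only [th0]
  split_ifs
  · constructor <;> norm_num
  · exact Pd_pos _

lemma th0_dig (a b : ℤ) : Dig th0 a b := fun m _ _ => (th0_pos m).2

lemma T1_pos : 0 < T1.2 := by decide

lemma Bw_lt_T1 : vl Bw < vl T1 := by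
  simp only [vl, Bw, T1]; norm_num

lemma T1_lt_Tw : vl T1 < vl Tw := by
  simp only [vl, Tw, T1]; norm_num

lemma th0_le (n : ℤ) : lam th0 n ≤ vl T1 := by
  have hθ : ∀ m, 1 ≤ th0 m := fun m => (th0_pos m).1
  rcases lt_or_ge n (-52) with h | h
  · have h1 : Fits th0 n ⟨[], 2, []⟩ := ⟨by simp [th0, h], trivial, trivial⟩
    have h2 := lam_bound th0 hθ n _ h1 (th0_dig _ _)
    have h3 := ltB_spec T1 T1_pos _ chkM2
    linarith [h2.2]
  rcases lt_or_ge n 12 with h' | h'
  · obtain ⟨k, hk⟩ : ∃ k : ℕ, (k : ℤ) = n + 52 := ⟨(n + 52).toNat, by omega⟩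
    have h1 : Fits th0 n (win G (64 + k) 64) := by
      apply fits_win _ _ _ _ _ (by omega)
      intro j _ _
      rw [← th0_G j]
      congr 1; push_cast; omega
    have h2 := lam_bound th0 hθ n _ h1 (th0_dig _ _)
    have h3 := ltB_spec T1 T1_pos _ (chkM k (by omega))
    linarith [h2.2]
  · have := per_lt th0 hθ n (n - 6).toNat (fun i hi => by
      simp only [th0]
      rw [if_neg (by omega)]
      congr 1; omega) (th0_dig _ _)
    linarith [Bw_lt_T1]

lemma th0_gt : vl Bw < lam th0 0 := by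
  have hθ : ∀ m, 1 ≤ th0 m := fun m => (th0_pos m).1
  have h1 : Fits th0 0 (win G 116 64) := by
    apply fits_win _ _ _ _ _ (by omega)
    intro j _ _
    rw [← th0_G j]
    congr 1; push_cast; omega
  have h2 := lam_bound th0 hθ 0 _ h1 (th0_dig _ _)
  have h3 := gtT_spec Bw Bw_pos _ chkM0
  linarith [h2.1]

/-- A point of the Markov spectrum in `(Bw, Tw)`. -/
theorem markov_point : ∃ v ∈ Markov, vl Bw < v ∧ v < vl Tw := by
  have hne : (Set.range (lam th0)).Nonempty := ⟨_, 0, rfl⟩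
  have hbd : BddAbove (Set.range (lam th0)) := ⟨vl T1, by rintro _ ⟨n, rfl⟩; exact th0_le n⟩
  have hlub := isLUB_csSup hne hbd
  refine ⟨_, ⟨th0, fun n => (th0_pos n).1, hlub⟩, ?_, ?_⟩
  · exact lt_of_lt_of_le th0_gt (hlub.1 ⟨0, rfl⟩)
  · have : sSup (Set.range (lam th0)) ≤ vl T1 := hlub.2 (by rintro _ ⟨n, rfl⟩; exact th0_le n)
    exact lt_of_le_of_lt this T1_lt_Tw

/-! ### A point of the Lagrange spectrum -/

/-- A periodic sequence of period `7`. -/
def th1 (m : ℤ) : ℕ := [3, 1, 1, 2, 2, 1, 2].getD (m % 7).toNat 0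

/-- The same on natural numbers. -/
def Q (i : ℕ) : ℕ := [3, 1, 1, 2, 2, 1, 2].getD (i % 7) 0

def Tl : ℕ × ℕ := (39568, 10000)
def Bl : ℕ × ℕ := (39567, 10000)

theorem chkQ : ∀ r, r < 7 → ltB Tl (win Q (14 + r) 14) = true := by
  decide +kernel

theorem chkQ0 : gtT Bl (win Q 14 14) = true := by
  decide +kernel

lemma th1_pos (m : ℤ) : 1 ≤ th1 m ∧ th1 m ≤ 3 := by
  have key : ∀ j, j < 7 → 1 ≤ ([3, 1, 1, 2, 2, 1, 2] : List ℕ).getD j 0 ∧
      ([3, 1, 1, 2, 2, 1, 2] : List ℕ).getD j 0 ≤ 3 := by decide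
  exact key _ (by omega)

lemma th1_dig (a b : ℤ) : Dig th1 a b := fun m _ _ => (th1_pos m).2

lemma th1_fits (n : ℤ) : Fits th1 n (win Q (14 + (n % 7).toNat) 14) := by
  apply fits_win _ _ _ _ _ (by omega)
  intro j _ _
  simp only [th1, Q]
  congr 1
  omega

lemma th1_lt (n : ℤ) : lam th1 n < vl Tl := by
  have h2 := lam_bound th1 (fun m => (th1_pos m).1) n _ (th1_fits n) (th1_dig _ _)
  have h3 := ltB_spec Tl (by decide) _ (chkQ (n % 7).toNat (by omega))
  linarith [h2.2]

lemma th1_gt : vl Bl < lam th1 0 := by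
  have h2 := lam_bound th1 (fun m => (th1_pos m).1) 0 _ (th1_fits 0) (th1_dig _ _)
  have h3 := gtT_spec Bl (by decide) _ chkQ0
  have : (14 + ((0 : ℤ) % 7).toNat) = 14 := by decide
  rw [this] at h2
  linarith [h2.1]

lemma th1_per (n k : ℤ) : th1 (n + 7 * k) = th1 n := by
  simp only [th1]; congr 1; omega

lemma lam_th1_per (n k : ℤ) : lam th1 (n + 7 * k) = lam th1 n := by
  simp only [lam, th1_per]
  have e1 : (fun i : ℕ => th1 (n + 7 * k + 1 + i)) = fun i : ℕ => th1 (n + 1 + i) := by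
    funext i
    rw [show n + 7 * k + 1 + (i : ℤ) = (n + 1 + i) + 7 * k by ring, th1_per]
  have e2 : (fun i : ℕ => th1 (n + 7 * k - 1 - i)) = fun i : ℕ => th1 (n - 1 - i) := by
    funext i
    rw [show n + 7 * k - 1 - (i : ℤ) = (n - 1 - i) + 7 * k by ring, th1_per]
  rw [e1, e2]

/-- A point of the Lagrange spectrum between `Bl` and `Tl`. -/
theorem lagrange_point : ∃ l ∈ Lagrange, vl Bl < l ∧ l < vl Tl := by
  obtain ⟨r, hr, hmax⟩ := Finset.exists_max_image (Finset.range 7) (fun r => lam th1 (r : ℤ))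
    ⟨0, by simp⟩
  have hall : ∀ n, lam th1 n ≤ lam th1 (r : ℤ) := by
    intro n
    have h1 := hmax (n % 7).toNat (by simp; omega)
    have h2 : lam th1 n = lam th1 ((n % 7).toNat : ℤ) := by
      rw [← lam_th1_per ((n % 7).toNat : ℤ) (n / 7)]
      congr 1; omega
    rw [h2]; exact h1
  refine ⟨lam th1 (r : ℤ), ⟨th1, fun m => (th1_pos m).1, ?_⟩, ?_, th1_lt _⟩
  · apply le_antisymm
    · apply limsup_le_of_le
      · isBoundedDefault
      · exact Eventually.of_forall fun n => by exact_mod_cast hall n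
    · apply le_limsup_of_frequently_le
      · rw [frequently_atTop]
        intro a
        refine ⟨(r : ℤ) + 7 * |a|, ?_, ?_⟩
        · have := le_abs_self a
          have := abs_nonneg a
          omega
        · rw [lam_th1_per]
      · isBoundedDefault
  · exact lt_of_lt_of_le th1_gt (hall 0)

end H86ML
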