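import Pool.Agent.H86.ML.Cert

/-!
Windows of explicit sequences, the forced periodic continuation and the contradiction lemma.
-/

namespace H86ML

/-- The list `[f s, f (s+1), ..., f (s+k-1)]`. -/
def mkl (f : ℕ → ℕ) : ℕ → ℕ → List ℕ
  | 0, _ => []
  | k + 1, s => f s :: mkl f k (s + 1)

/-- The window of radius `K` of `f` around the index `c`. -/
def win (f : ℕ → ℕ) (c K : ℕ) : Z :=
  ⟨mkl (fun i => f (c - 1 - i)) K 0, f c, mkl f K (c + 1)⟩

lemma mat_mkl (f : ℕ → ℕ) (k : ℕ) : ∀ (s : ℕ) (b : ℕ → ℕ), (∀ i, i < k → b i = f (s + i)) →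
    Mat (mkl f k s) b := by
  induction k with
  | zero => intro s b _; trivial
  | succ k ih =>
    intro s b h
    refine ⟨by simpa using h 0 (by omega), ih (s + 1) _ fun i hi => ?_⟩
    have := h (i + 1) (by omega)
    rw [this]; congr 1; ring

lemma length_mkl (f : ℕ → ℕ) (k : ℕ) : ∀ s, (mkl f k s).length = k := by
  induction k with
  | zero => intro s; rfl
  | succ k ih => intro s; simp [mkl, ih]

lemma fits_win (θ : ℤ → ℕ) (n : ℤ) (f : ℕ → ℕ) (c K : ℕ) (hc : K ≤ c)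
    (h : ∀ j : ℕ, c ≤ j + K → j ≤ c + K → θ (n + j - c) = f j) : Fits θ n (win f c K) := by
  refine ⟨?_, ?_, ?_⟩
  · have := h c (by omega) (by omega)
    change θ n = f c
    simpa using this
  · apply mat_mkl
    intro i hi
    have := h (c + 1 + i) (by omega) (by omega)
    rw [← this]; congr 1; push_cast; ring
  · apply mat_mkl
    intro i hi
    have := h (c - 1 - i) (by omega) (by omega)
    simp only [zero_add]
    rw [← this]; congr 1; omega

lemma win_len (f : ℕ → ℕ) (c K : ℕ) : (win f c K).lf.length = K ∧ (win f c K).rt.length = K :=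
  ⟨length_mkl _ _ _, length_mkl _ _ _⟩

lemma mat_get (l : List ℕ) : ∀ (b : ℕ → ℕ), Mat l b → ∀ i, i < l.length → b i = l.getD i 0 := by
  induction l with
  | nil => intro b _ i hi; simp at hi
  | cons a l ih =>
    intro b hm i hi
    cases i with
    | zero => simpa using hm.1
    | succ i =>
      have := ih _ hm.2 i (by simpa using hi)
      simpa using this

/-- The period. -/
def Pl : List ℕ :=
  [3, 1, 1, 2, 2, 3, 2, 1, 2, 1, 2, 3, 1, 1, 2, 2, 3, 2, 3, 2, 2, 1, 1, 3, 2, 1, 2, 1, 2]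

/-- The periodic sequence. -/
def Pd (i : ℕ) : ℕ := Pl.getD (i % 29) 0

lemma Pd_mod (r i : ℕ) : Pd (r % 29 + i) = Pd (r + i) := by
  simp only [Pd]; congr 1; omega

lemma Pd_pos (i : ℕ) : 1 ≤ Pd i ∧ Pd i ≤ 3 := by
  have key : ∀ j, j < 29 → 1 ≤ Pl.getD j 0 ∧ Pl.getD j 0 ≤ 3 := by decide
  exact key _ (Nat.mod_lt _ (by norm_num))

theorem chkPer : ∀ r, r < 29 → ltB Bw (win (fun i => Pd (r + i)) 64 64) = true := by
  decide +kernel

theorem chkW : W.rt.length = 50 ∧ W.c = Pd 0 ∧ ∀ j, j < 28 → W.rt.getD j 0 = Pd (j + 1) := by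
  decide +kernel

lemma Bw_pos : 0 < Bw.2 := by decide
lemma Tw_pos : 0 < Tw.2 := by decide

/-- In the periodic part all values are below `Bw`. -/
lemma per_lt (θ : ℤ → ℕ) (hθ : ∀ n, 1 ≤ θ n) (n : ℤ) (r : ℕ)
    (h : ∀ i : ℕ, i ≤ 128 → θ (n - 64 + i) = Pd (r + i)) (hd : Dig θ (n - 69) (n + 69)) :
    lam θ n < vl Bw := by
  have h1 : Fits θ n (win (fun i => Pd (r % 29 + i)) 64 64) := by
    apply fits_win _ _ _ _ _ le_rfl
    intro j _ hj
    rw [Pd_mod, ← h j (by omega)]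
    congr 1; push_cast; ring
  obtain ⟨l1, l2⟩ := win_len (fun i => Pd (r % 29 + i)) 64 64
  have h2 := lam_bound θ hθ n _ h1 (by
    rw [l1, l2]
    intro m a b
    apply hd <;> push_cast at a b <;> omega)
  have h3 := ltB_spec Bw Bw_pos _ (chkPer (r % 29) (Nat.mod_lt _ (by norm_num)))
  linarith [h2.2]

/-- The window `W` repeats itself 29 places to the right. -/
lemma step (θ : ℤ → ℕ) (hθ : ∀ n, 1 ≤ θ n) (n : ℤ) (hW : Fits θ n W)
    (hT : ∀ m, n - 130 ≤ m → m ≤ n + 130 → lam θ m ≤ vl Tw) : Fits θ (n + 29) W := by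
  have h0 : vl (0, 1) ≤ lam θ n := by
    have := lam_ge θ hθ n
    have h2 : (0 : ℝ) ≤ θ n := Nat.cast_nonneg _
    simp only [vl]; norm_num; linarith
  obtain ⟨z, hz, hf⟩ := chk_sound tgtB (0, 1) Tw (by norm_num) Tw_pos (by decide) θ hθ n hT h0 tB W
    hW chkB
  simp only [tgtB, Bool.and_eq_true, Nat.ble_eq] at hz
  have := (fits_mrs θ 29 n z hf hz.1).1
  exact fits_has θ _ _ _ hz.2 (by exact_mod_cast this)

/-- All entries are at most `3` where `lam ≤ Tw`. -/
lemma dig_of (θ : ℤ → ℕ) (hθ : ∀ n, 1 ≤ θ n) (a b : ℤ)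
    (hT : ∀ m, a ≤ m → m ≤ b → lam θ m ≤ vl Tw) : Dig θ a b := by
  intro m h1 h2
  have h3 := hT m h1 h2
  have h4 := lam_ge θ hθ m
  have h5 : vl Tw < 4 := by simp only [vl, Tw]; norm_num
  have h6 : (θ m : ℝ) < 4 := by linarith
  have h7 : θ m < 4 := by exact_mod_cast h6
  omega

/-- After an occurrence of `W` all later values are below `Bw` as long as the sequence stays
below `Tw`. -/
lemma after (θ : ℤ → ℕ) (hθ : ∀ n, 1 ≤ θ n) (n m : ℤ) (hW : Fits θ n W) (hnm : n + 64 ≤ m)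
    (hT : ∀ j, n - 130 ≤ j → j ≤ m + 300 → lam θ j ≤ vl Tw) : lam θ m < vl Bw := by
  have h1 : ∀ k : ℕ, n + 29 * k ≤ m + 64 → Fits θ (n + 29 * k) W := by
    intro k
    induction k with
    | zero => intro _; simpa using hW
    | succ k ih =>
      intro hk
      push_cast at hk
      have := step θ hθ (n + 29 * k) (ih (by omega)) (fun j a b => hT j (by omega) (by omega))
      rw [show n + 29 * ((k + 1 : ℕ) : ℤ) = n + 29 * k + 29 by push_cast; ring]
      exact this
  have h2 : ∀ i : ℕ, n + i ≤ m + 64 → θ (n + i) = Pd i := by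
    intro i hi
    have hk := h1 (i / 29) (by omega)
    have hi' : i = 29 * (i / 29) + i % 29 := (Nat.div_add_mod i 29).symm
    have hlt : i % 29 < 29 := Nat.mod_lt _ (by norm_num)
    obtain ⟨w1, w2, w3⟩ := chkW
    have hPd : Pd i = Pd (i % 29) := by simp only [Pd]; congr 1; omega
    rw [hPd]
    rcases Nat.eq_zero_or_pos (i % 29) with h0 | h0
    · rw [h0, ← w2, ← hk.1]; congr 1; omega
    · have := mat_get _ _ hk.2.1 (i % 29 - 1) (by rw [w1]; omega)
      rw [w3 _ (by omega)] at this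
      rw [show i % 29 - 1 + 1 = i % 29 by omega] at this
      rw [← this]; congr 1; omega
  have hr : m - 64 - n = ((m - 64 - n).toNat : ℤ) := by
    rw [Int.toNat_of_nonneg (by omega)]
  apply per_lt θ hθ m (m - 64 - n).toNat
  · intro i hi
    rw [← h2 _ (by push_cast; omega)]
    congr 1; push_cast; omega
  · exact dig_of θ hθ _ _ (fun j a b => hT j (by omega) (by omega))

/-- Local uniqueness. -/
lemma unique (θ : ℤ → ℕ) (hθ : ∀ n, 1 ≤ θ n) (n : ℤ)
    (hT : ∀ m, n - 130 ≤ m → m ≤ n + 130 → lam θ m ≤ vl Tw) (hB : vl Bw ≤ lam θ n) :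
    Fits θ n W ∨ Fits θ n W.rev := by
  have hd := dig_of θ hθ _ _ hT n (by omega) (by omega)
  have hp := hθ n
  have snd := chk_sound tgtA Bw Tw Bw_pos Tw_pos (by decide) θ hθ n hT hB
  have fin : ∀ z', tgtA z' = true ∧ Fits θ n z' → Fits θ n W ∨ Fits θ n W.rev := by
    rintro z' ⟨h1, h2⟩
    simp only [tgtA, Bool.or_eq_true] at h1
    rcases h1 with h1 | h1
    · exact Or.inl (fits_has θ n _ _ h1 h2)
    · exact Or.inr (fits_has θ n _ _ h1 h2)
  have hc : ∀ c, θ n = c → Fits θ n ⟨[], c, []⟩ := fun c h => ⟨h, trivial, trivial⟩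
  have h3 : θ n = 1 ∨ θ n = 2 ∨ θ n = 3 := by omega
  rcases h3 with h | h | h
  · obtain ⟨z', hz⟩ := snd _ _ (hc _ h) chkA1
    exact fin z' hz
  · obtain ⟨z', hz⟩ := snd _ _ (hc _ h) chkA2
    exact fin z' hz
  · obtain ⟨z', hz⟩ := snd _ _ (hc _ h) chkA
    exact fin z' hz

/-- Three places far apart with `Bw ≤ lam` cannot occur below the level `Tw`. -/
lemma three (θ : ℤ → ℕ) (hθ : ∀ n, 1 ≤ θ n) (N m1 m2 m3 : ℤ) (hT : ∀ j, N ≤ j → lam θ j ≤ vl Tw)
    (h1 : N + 300 ≤ m1) (h2 : m1 + 200 ≤ m2) (h3 : m2 + 200 ≤ m3) (b1 : vl Bw ≤ lam θ m1)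
    (b2 : vl Bw ≤ lam θ m2) (b3 : vl Bw ≤ lam θ m3) : False := by
  rcases unique θ hθ m2 (fun m a _ => hT m (by omega)) b2 with h | h
  · have := after θ hθ m2 m3 h (by omega) (fun j a _ => hT j (by omega))
    linarith
  · have h' : Fits (refl θ) (-m2) W := by
      have := (fits_refl θ m2 W.rev).2 h
      exact this
    have := after (refl θ) (fun m => hθ _) (-m2) (-m1) h' (by omega) (fun j a b => by
      have e := lam_refl θ (-j)
      rw [neg_neg] at e
      rw [e]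
      exact hT _ (by omega))
    rw [lam_refl] at this
    linarith

end H86ML
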