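import Pool.Agent.H86.ML.Base

/-!
Interval evaluation of `lam` on finite windows and a certified search tree.
-/

namespace H86ML

/-- Value of `[0; l, tail]` as a fraction (numerator, denominator), where the tail is the upper
or lower rational bound; `true` gives an upper bound, `false` a lower bound. -/
def ev : Bool → List ℕ → ℕ × ℕ
  | true, [] => (7918, 10000)
  | false, [] => (2631, 10000)
  | b, a :: l => ((ev (!b) l).2, a * (ev (!b) l).2 + (ev (!b) l).1)

/-- A finite window: left entries (read to the left), centre, right entries. -/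
structure Z where
  lf : List ℕ
  c : ℕ
  rt : List ℕ

/-- Numerator and denominator of the bound for `lam` on the window. -/
def lamF (b : Bool) (z : Z) : ℕ × ℕ :=
  let x := ev b z.rt
  let y := ev b z.lf
  (z.c * x.2 * y.2 + x.1 * y.2 + y.1 * x.2, x.2 * y.2)

/-- The lower bound for `lam` exceeds `T.1 / T.2`. -/
def gtT (T : ℕ × ℕ) (z : Z) : Bool :=
  let x := lamF false z
  Nat.blt (T.1 * x.2) (x.1 * T.2)

/-- The upper bound for `lam` is less than `B.1 / B.2`. -/
def ltB (B : ℕ × ℕ) (z : Z) : Bool :=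
  let x := lamF true z
  Nat.blt (x.1 * B.2) (B.1 * x.2)

/-- Entries of the list `l` are the first values of `b`. -/
def Mat : List ℕ → (ℕ → ℕ) → Prop
  | [], _ => True
  | a :: l, b => b 0 = a ∧ Mat l (fun i => b (i + 1))

/-- `θ` shows the window `z` at position `n`. -/
def Fits (θ : ℤ → ℕ) (n : ℤ) (z : Z) : Prop :=
  θ n = z.c ∧ Mat z.rt (fun i => θ (n + 1 + i)) ∧ Mat z.lf (fun i => θ (n - 1 - i))

lemma ev_pos (l : List ℕ) : ∀ b, 0 < (ev b l).1 ∧ 0 < (ev b l).2 := by
  induction l with
  | nil => intro b; cases b <;> simp [ev]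
  | cons a l ih =>
    intro b
    have h := ih (!b)
    cases b <;> simp only [ev] <;> constructor <;> first | exact h.2 | (have := h.1; omega)

/-- Value of a pair. -/
noncomputable def vl (p : ℕ × ℕ) : ℝ := (p.1 : ℝ) / p.2

lemma vl_ev_cons (b : Bool) (a : ℕ) (l : List ℕ) :
    vl (ev b (a :: l)) = 1 / ((a : ℝ) + vl (ev (!b) l)) := by
  have h := ev_pos l (!b)
  have h2 : (0 : ℝ) < (ev (!b) l).2 := by exact_mod_cast h.2
  have h1 : (0 : ℝ) < (ev (!b) l).1 := by exact_mod_cast h.1
  have e : ev b (a :: l) = ((ev (!b) l).2, a * (ev (!b) l).2 + (ev (!b) l).1) := by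
    cases b <;> rfl
  rw [e]
  simp only [vl]
  push_cast
  have h3 : (0 : ℝ) ≤ a := Nat.cast_nonneg a
  field_simp

lemma vl_pos (b : Bool) (l : List ℕ) : 0 < vl (ev b l) := by
  have h := ev_pos l b
  have h2 : (0 : ℝ) < (ev b l).2 := by exact_mod_cast h.2
  have h1 : (0 : ℝ) < (ev b l).1 := by exact_mod_cast h.1
  exact div_pos h1 h2

/-- The interval evaluation is correct. -/
lemma ev_bound (l : List ℕ) : ∀ (b : ℕ → ℕ), (∀ i, 1 ≤ b i) → Mat l b →
    (∀ i, i < 4 → b (l.length + i) ≤ 3) →
    vl (ev false l) ≤ cf b ∧ cf b ≤ vl (ev true l) := by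
  induction l with
  | nil =>
    intro b hb _ h3
    have := cf_dig3 b hb (fun i hi => by simpa using h3 i hi)
    simpa [ev, vl] using this
  | cons a l ih =>
    intro b hb hm h3
    have hb' : ∀ i, 1 ≤ (fun i => b (i + 1)) i := fun i => hb _
    have h := ih (fun i => b (i + 1)) hb' hm.2 (fun i hi => by
      have := h3 i hi
      simp only [List.length_cons] at this
      rw [show l.length + 1 + i = l.length + i + 1 by ring] at this
      exact this)
    have hr := cf_rec b hb
    rw [hr, vl_ev_cons, vl_ev_cons, hm.1]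
    have hc := cf_mem _ hb'
    have ha : (1 : ℝ) ≤ a := by rw [← hm.1]; exact_mod_cast hb 0
    have hp := vl_pos false l
    constructor
    · apply one_div_le_one_div_of_le
      · linarith [hc.1]
      · simpa using h.2
    · apply one_div_le_one_div_of_le
      · simp only [Bool.not_true]; linarith
      · simpa using h.1

/-- All entries in the window around `n` lie between `1` and `3`. -/
def Dig (θ : ℤ → ℕ) (a b : ℤ) : Prop := ∀ m, a ≤ m → m ≤ b → θ m ≤ 3

lemma lam_bound (θ : ℤ → ℕ) (hθ : ∀ n, 1 ≤ θ n) (n : ℤ) (z : Z) (hz : Fits θ n z)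
    (hd : Dig θ (n - z.lf.length - 5) (n + z.rt.length + 5)) :
    vl (lamF false z) ≤ lam θ n ∧ lam θ n ≤ vl (lamF true z) := by
  have h1 := ev_bound z.rt (fun i => θ (n + 1 + i)) (fun i => hθ _) hz.2.1 (fun i hi => by
    apply hd
    · push_cast; omega
    · push_cast; omega)
  have h2 := ev_bound z.lf (fun i => θ (n - 1 - i)) (fun i => hθ _) hz.2.2 (fun i hi => by
    apply hd
    · push_cast; omega
    · push_cast; omega)
  have key : ∀ b, vl (lamF b z) = (z.c : ℝ) + vl (ev b z.rt) + vl (ev b z.lf) := by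
    intro b
    have p1 := ev_pos z.rt b
    have p2 := ev_pos z.lf b
    have q1 : (0 : ℝ) < (ev b z.rt).2 := by exact_mod_cast p1.2
    have q2 : (0 : ℝ) < (ev b z.lf).2 := by exact_mod_cast p2.2
    simp only [vl, lamF]
    push_cast
    field_simp
  rw [key, key, lam, hz.1]
  constructor <;> linarith [h1.1, h1.2, h2.1, h2.2]

lemma gtT_spec (T : ℕ × ℕ) (hT : 0 < T.2) (z : Z) (h : gtT T z = true) :
    vl T < vl (lamF false z) := by
  have p1 := ev_pos z.rt false
  have p2 := ev_pos z.lf false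
  have hpos : 0 < (lamF false z).2 := Nat.mul_pos p1.2 p2.2
  simp only [gtT, Nat.blt_eq] at h
  have h' : (T.1 : ℝ) * (lamF false z).2 < (lamF false z).1 * T.2 := by exact_mod_cast h
  have q1 : (0 : ℝ) < (lamF false z).2 := by exact_mod_cast hpos
  have q2 : (0 : ℝ) < T.2 := by exact_mod_cast hT
  rw [vl, vl, div_lt_div_iff₀ q2 q1]
  exact h'

lemma ltB_spec (B : ℕ × ℕ) (hB : 0 < B.2) (z : Z) (h : ltB B z = true) :
    vl (lamF true z) < vl B := by
  have p1 := ev_pos z.rt true
  have p2 := ev_pos z.lf true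
  have hpos : 0 < (lamF true z).2 := Nat.mul_pos p1.2 p2.2
  simp only [ltB, Nat.blt_eq] at h
  have h' : ((lamF true z).1 : ℝ) * B.2 < B.1 * (lamF true z).2 := by exact_mod_cast h
  have q1 : (0 : ℝ) < (lamF true z).2 := by exact_mod_cast hpos
  have q2 : (0 : ℝ) < B.2 := by exact_mod_cast hB
  rw [vl, vl, div_lt_div_iff₀ q1 q2]
  exact h'

/-- One step to the right. -/
def Z.mr (z : Z) : Z :=
  match z.rt with
  | [] => z
  | r :: rt => ⟨z.c :: z.lf, r, rt⟩

/-- Reversal. -/
def Z.rev (z : Z) : Z := ⟨z.rt, z.c, z.lf⟩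

/-- `k` steps to the right. -/
def Z.mrs : ℕ → Z → Z
  | 0, z => z
  | k + 1, z => Z.mrs k z.mr

lemma mat_congr {l : List ℕ} {b b' : ℕ → ℕ} (h : ∀ i, b i = b' i) (hm : Mat l b) : Mat l b' := by
  have : b = b' := funext h
  rw [← this]; exact hm

lemma fits_mr (θ : ℤ → ℕ) (n : ℤ) (z : Z) (h : Fits θ n z) (hr : z.rt ≠ []) :
    Fits θ (n + 1) z.mr := by
  obtain ⟨lf, c, rt⟩ := z
  cases rt with
  | nil => exact absurd rfl hr
  | cons r rt =>
    obtain ⟨h1, h2, h3⟩ := h
    simp only at h1 h2 h3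
    refine ⟨?_, ?_, ?_⟩
    · have := h2.1
      simpa [Z.mr] using this
    · simp only [Z.mr]
      refine mat_congr (fun i => ?_) h2.2
      push_cast; ring_nf
    · simp only [Z.mr]
      refine ⟨?_, mat_congr (fun i => ?_) h3⟩
      · simpa using h1
      · congr 1; push_cast; ring

lemma fits_mrs (θ : ℤ → ℕ) (k : ℕ) : ∀ (n : ℤ) (z : Z), Fits θ n z → k ≤ z.rt.length →
    Fits θ (n + k) (Z.mrs k z) ∧ (Z.mrs k z).lf.length = z.lf.length + k ∧
      (Z.mrs k z).rt.length + k = z.rt.length := by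
  induction k with
  | zero => intro n z h _; simpa [Z.mrs] using h
  | succ k ih =>
    intro n z h hk
    have hr : z.rt ≠ [] := by
      intro h0; rw [h0] at hk; simp at hk
    have h1 := fits_mr θ n z h hr
    obtain ⟨lf, c, rt⟩ := z
    cases rt with
    | nil => exact absurd rfl hr
    | cons r rt =>
      have h2 := ih (n + 1) (Z.mr ⟨lf, c, r :: rt⟩) h1 (by simp [Z.mr] at hk ⊢; omega)
      refine ⟨?_, ?_, ?_⟩
      · have := h2.1
        rw [show n + ((k + 1 : ℕ) : ℤ) = n + 1 + k by push_cast; ring]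
        exact this
      · have := h2.2.1
        simp only [Z.mrs, Z.mr, List.length_cons] at this ⊢
        omega
      · have := h2.2.2
        simp only [Z.mrs, Z.mr, List.length_cons] at this ⊢
        omega

/-- Reflection of a sequence. -/
def refl (θ : ℤ → ℕ) : ℤ → ℕ := fun m => θ (-m)

lemma fits_refl (θ : ℤ → ℕ) (n : ℤ) (z : Z) : Fits (refl θ) (-n) z.rev ↔ Fits θ n z := by
  obtain ⟨lf, c, rt⟩ := z
  simp only [Fits, Z.rev, refl]
  constructor
  · rintro ⟨h1, h2, h3⟩
    refine ⟨by simpa using h1, mat_congr (fun i => ?_) h3, mat_congr (fun i => ?_) h2⟩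
    · congr 1; ring
    · congr 1; ring
  · rintro ⟨h1, h2, h3⟩
    refine ⟨by simpa using h1, mat_congr (fun i => ?_) h3, mat_congr (fun i => ?_) h2⟩
    · congr 1; ring
    · congr 1; ring

lemma lam_refl (θ : ℤ → ℕ) (n : ℤ) : lam (refl θ) (-n) = lam θ n := by
  simp only [lam, refl]
  have e1 : (fun i : ℕ => θ (-(-n + 1 + (i : ℤ)))) = fun i : ℕ => θ (n - 1 - i) := by
    funext i; congr 1; ring
  have e2 : (fun i : ℕ => θ (-(-n - 1 - (i : ℤ)))) = fun i : ℕ => θ (n + 1 + i) := by
    funext i; congr 1; ring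
  rw [e1, e2, neg_neg]
  ring

/-- Search trees. `hi k`: the bound for `lam` at offset `k` to the right is too large; `hl k`:
the same to the left; `lo`: the bound for `lam` at the centre is too small; `ok`: the target is
reached; `br s`: branching over the next entry on the right (`s = true`) or left side. -/
inductive Tr where
  | hi : ℕ → Tr
  | hl : ℕ → Tr
  | lo : Tr
  | ok : Tr
  | br : Bool → Tr → Tr → Tr → Tr

/-- Guard on the lengths. -/
def grd (z : Z) : Bool := Nat.ble z.lf.length 120 && Nat.ble z.rt.length 120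

/-- Extend a window by an entry. -/
def Z.ext (z : Z) (s : Bool) (d : ℕ) : Z :=
  match s with
  | true => ⟨z.lf, z.c, z.rt ++ [d]⟩
  | false => ⟨z.lf ++ [d], z.c, z.rt⟩

/-- The checker. -/
def chk (tgt : Z → Bool) (B T : ℕ × ℕ) : Tr → Z → Bool
  | .hi k, z => grd z && Nat.ble k z.rt.length && gtT T (Z.mrs k z)
  | .hl k, z => grd z && Nat.ble k z.lf.length && gtT T (Z.mrs k z.rev)
  | .lo, z => grd z && ltB B z
  | .ok, z => tgt z
  | .br s t1 t2 t3, z =>
    grd z && chk tgt B T t1 (z.ext s 1) && chk tgt B T t2 (z.ext s 2) &&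
      chk tgt B T t3 (z.ext s 3)

lemma mat_snoc (l : List ℕ) : ∀ (b : ℕ → ℕ) (d : ℕ), Mat l b → b l.length = d →
    Mat (l ++ [d]) b := by
  induction l with
  | nil => intro b d _ h; exact ⟨by simpa using h, trivial⟩
  | cons a l ih =>
    intro b d hm h
    exact ⟨hm.1, ih (fun i => b (i + 1)) d hm.2 (by simpa using h)⟩

lemma lam_ge (θ : ℤ → ℕ) (hθ : ∀ n, 1 ≤ θ n) (n : ℤ) : (θ n : ℝ) ≤ lam θ n := by
  have h1 := cf_mem (fun i => θ (n + 1 + i)) (fun i => hθ _)
  have h2 := cf_mem (fun i => θ (n - 1 - i)) (fun i => hθ _)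
  simp only [lam]
  linarith [h1.1, h2.1]

/-- Soundness of the checker. -/
theorem chk_sound (tgt : Z → Bool) (B T : ℕ × ℕ) (hB2 : 0 < B.2) (hT2 : 0 < T.2)
    (hT4 : T.1 < 4 * T.2) (θ : ℤ → ℕ) (hθ : ∀ n, 1 ≤ θ n) (n : ℤ)
    (hT : ∀ m, n - 130 ≤ m → m ≤ n + 130 → lam θ m ≤ vl T) (hB : vl B ≤ lam θ n) (t : Tr) :
    ∀ z, Fits θ n z → chk tgt B T t z = true → ∃ z', tgt z' = true ∧ Fits θ n z' := by
  have hdig : Dig θ (n - 130) (n + 130) := by
    intro m h1 h2
    have h3 := hT m h1 h2
    have h4 := lam_ge θ hθ m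
    have h5 : vl T < 4 := by
      have : (T.1 : ℝ) < 4 * T.2 := by exact_mod_cast hT4
      have q : (0 : ℝ) < T.2 := by exact_mod_cast hT2
      rw [vl, div_lt_iff₀ q]; exact this
    have h6 : (θ m : ℝ) < 4 := by linarith
    have h7 : θ m < 4 := by exact_mod_cast h6
    omega
  have hgrd : ∀ z : Z, grd z = true → z.lf.length ≤ 120 ∧ z.rt.length ≤ 120 := by
    intro z h
    simp only [grd, Bool.and_eq_true, Nat.ble_eq] at h
    exact h
  induction t with
  | hi k =>
    intro z hz h
    exfalso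
    simp only [chk, Bool.and_eq_true, Nat.ble_eq] at h
    obtain ⟨⟨hg, hk⟩, h⟩ := h
    have hg := hgrd z hg
    obtain ⟨f1, f2, f3⟩ := fits_mrs θ k n z hz hk
    have b1 := lam_bound θ hθ (n + k) _ f1 (by
      intro m h1 h2
      apply hdig
      · rw [f2] at h1; push_cast at h1; omega
      · omega)
    have b2 := gtT_spec T hT2 _ h
    have b3 := hT (n + k) (by omega) (by omega)
    linarith [b1.1]
  | hl k =>
    intro z hz h
    exfalso
    simp only [chk, Bool.and_eq_true, Nat.ble_eq] at h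
    obtain ⟨⟨hg, hk⟩, h⟩ := h
    have hg := hgrd z hg
    have hz' := (fits_refl θ n z).2 hz
    obtain ⟨f1, f2, f3⟩ := fits_mrs (refl θ) k (-n) z.rev hz' hk
    have hl1 : z.rev.lf.length = z.rt.length := rfl
    have hl2 : z.rev.rt.length = z.lf.length := rfl
    have b1 := lam_bound (refl θ) (fun m => hθ _) (-n + k) _ f1 (by
      intro m h1 h2
      simp only [refl]
      apply hdig
      · omega
      · rw [f2] at h1; push_cast at h1; omega)
    have b2 := gtT_spec T hT2 _ h
    have b3 := hT (n - k) (by omega) (by omega)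
    have e : lam (refl θ) (-n + k) = lam θ (n - k) := by
      rw [← lam_refl θ (n - k)]
      congr 1; ring
    rw [e] at b1
    linarith [b1.1]
  | lo =>
    intro z hz h
    exfalso
    simp only [chk, Bool.and_eq_true] at h
    have hg := hgrd z h.1
    have b1 := lam_bound θ hθ n z hz (by
      intro m h1 h2
      apply hdig <;> omega)
    have b2 := ltB_spec B hB2 z h.2
    linarith [b1.2]
  | ok =>
    intro z hz h
    exact ⟨z, h, hz⟩
  | br s t1 t2 t3 ih1 ih2 ih3 =>
    intro z hz h
    simp only [chk, Bool.and_eq_true] at h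
    obtain ⟨⟨⟨hg, h1⟩, h2⟩, h3⟩ := h
    have hg := hgrd z hg
    cases s with
    | true =>
      have hd : θ (n + 1 + z.rt.length) = 1 ∨ θ (n + 1 + z.rt.length) = 2 ∨
          θ (n + 1 + z.rt.length) = 3 := by
        have a1 := hθ (n + 1 + z.rt.length)
        have a2 := hdig (n + 1 + z.rt.length) (by omega) (by omega)
        omega
      have hext : ∀ d, θ (n + 1 + z.rt.length) = d → Fits θ n (z.ext true d) := by
        intro d h
        exact ⟨hz.1, mat_snoc _ _ _ hz.2.1 h, hz.2.2⟩
      rcases hd with h | h | h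
      · exact ih1 _ (hext _ h) h1
      · exact ih2 _ (hext _ h) h2
      · exact ih3 _ (hext _ h) h3
    | false =>
      have hd : θ (n - 1 - z.lf.length) = 1 ∨ θ (n - 1 - z.lf.length) = 2 ∨
          θ (n - 1 - z.lf.length) = 3 := by
        have a1 := hθ (n - 1 - z.lf.length)
        have a2 := hdig (n - 1 - z.lf.length) (by omega) (by omega)
        omega
      have hext : ∀ d, θ (n - 1 - z.lf.length) = d → Fits θ n (z.ext false d) := by
        intro d h
        exact ⟨hz.1, hz.2.1, mat_snoc _ _ _ hz.2.2 h⟩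
      rcases hd with h | h | h
      · exact ih1 _ (hext _ h) h1
      · exact ih2 _ (hext _ h) h2
      · exact ih3 _ (hext _ h) h3

/-- `l` is an initial piece of `m`. -/
def pfx : List ℕ → List ℕ → Bool
  | [], _ => true
  | _ :: _, [] => false
  | a :: l, b :: m => Nat.beq a b && pfx l m

/-- The window `z` contains the window `w` (same centre). -/
def has (w z : Z) : Bool := Nat.beq w.c z.c && pfx w.lf z.lf && pfx w.rt z.rt

lemma mat_pfx (l : List ℕ) : ∀ (m : List ℕ) (b : ℕ → ℕ), pfx l m = true → Mat m b → Mat l b := by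
  induction l with
  | nil => intro m b _ _; trivial
  | cons a l ih =>
    intro m b h hm
    cases m with
    | nil => simp [pfx] at h
    | cons c m =>
      simp only [pfx, Bool.and_eq_true, Nat.beq_eq] at h
      exact ⟨by rw [h.1]; exact hm.1, ih m _ h.2 hm.2⟩

lemma fits_has (θ : ℤ → ℕ) (n : ℤ) (w z : Z) (h : has w z = true) (hz : Fits θ n z) :
    Fits θ n w := by
  simp only [has, Bool.and_eq_true, Nat.beq_eq] at h
  exact ⟨by rw [h.1.1]; exact hz.1, mat_pfx _ _ _ h.2 hz.2.1, mat_pfx _ _ _ h.1.2 hz.2.2⟩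

end H86ML
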